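import Pool.Agent.W973.IP.Defs

set_option autoImplicit false

/-!
# IP, part CORE: assembly of the analytic part
-/

namespace Pool.Agent.W392.IP

open Pool.Agent.W973.IP MvPolynomial

theorem core (h1 : S_TRI) (h2 : S_MAX) (h3 : S_NOFJ) (h4 : S_SIGN) : S_CORE := by
  intro n P hdeg hpos K hgap
  have hT : (0 : ℝ) < 2 ^ (2 ^ K) := by positivity
  have hc₁ : (0 : ℝ) < (2 ^ (2 ^ K) : ℝ)⁻¹ := inv_pos.mpr hT
  have hN : 1 ≤ 2 ^ bb n := Nat.one_le_two_pow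
  have hgb : ∀ c e : ℝ, 0 < c → c ≤ (2 ^ (2 ^ K) : ℝ)⁻¹ → 0 < e → e ≤ c ^ (2 ^ bb n) →
      Good P (aE n) c e ∨ Bad P (aE n) c e := by
    intro c e hc hcc he heN
    by_contra hcon
    push Not at hcon
    obtain ⟨hg, hb⟩ := hcon
    obtain ⟨r, hr, u, w, lam, hFJ⟩ := h1 n P (aE n) hpos c e hc he hg hb
    obtain ⟨ε, hε, hno⟩ := h3 n P hdeg
    have hc1 : c * 2 ^ (2 ^ K) ≤ 1 := by
      calc c * 2 ^ (2 ^ K) ≤ (2 ^ (2 ^ K) : ℝ)⁻¹ * 2 ^ (2 ^ K) :=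
            mul_le_mul_of_nonneg_right hcc hT.le
        _ = 1 := inv_mul_cancel₀ hT.ne'
    obtain ⟨r', c', e', u', w', lam', hr', hc', hc'ε, he', he'N, hFJ'⟩ :=
      hgap r c e u w lam hr hc he heN hFJ hc1 ε hε
    exact hno c' e' r' u' w' lam' hr' hc' hc'ε he' he'N hFJ'
  rw [h4 n P (aE n) hdeg hpos (2 ^ bb n) _ hN hc₁ hgb]
  constructor
  · intro hg
    exact h2 n P (aE n) hdeg hpos _ _ hc₁ (pow_pos hc₁ _) hg
  · rintro ⟨r, _, u, w, lam, v, _, hw⟩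
    exact ⟨u, hw⟩

end Pool.Agent.W392.IP
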