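import Pool.Agent.W973.IP.FDefs

/-! The reduction is computable in polynomial time. -/

set_option autoImplicit false

open Pool.Agent.W973.IP Pool.Agent.NPC Pool.Agent.NPC.ER Pool.Agent.NPC.H612

namespace Pool.Agent.W392.IP

theorem prT (h1 : S_PF) (h2 : S_PC) : S_PR := by
  have hS : Poly (fun p : List ℕ × Fm => sysOf (Fm.not p.2)) :=
    poly_sysOf (poly_fnot (Poly.snd Poly.id))
  have hE : Poly (fun p : List ℕ × Fm => p.1) := Poly.fst Poly.id
  obtain ⟨a, b⟩ := h1 (List ℕ × Fm) (fun p => p.1) (fun p => sysOf (Fm.not p.2)) hE hS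
  exact h2 (List ℕ × Fm) _ _ a b

end Pool.Agent.W392.IP
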